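import Pool.Agent.helper66.FB.Spec2
import Pool.Agent.helper66.FB.KC

/-!
Module B2S (MP_5ae64c_pr functional form, part B): the choice of the parameters for `J` more uniform
vertices.
-/

set_option autoImplicit false

open scoped BigOperators Topology
open Filter MeasureTheory

namespace Pool.Agent.helper66.FB

open Finset
open Pool.Agent.helper72.UT (IsFor dep pth rt fors Reg lz PathTo)
open Pool.Agent.helper20.HP
open Pool.Agent.helper90.FN (EF glue dn sk avJ Hit BGoal)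

theorem B2S_EF_mono {V : Type} [Fintype V] [DecidableEq V] (G : SimpleGraph V) (D : Finset V)
    {F F' : (V → V) → ℝ} (h : ∀ f, F f ≤ F' f) : EF G D F ≤ EF G D F' := by
  unfold EF
  exact div_le_div_of_nonneg_right (Finset.sum_le_sum fun f _ => h f) (Nat.cast_nonneg _)

theorem B2S_it_mono {V : Type} [Fintype V] [DecidableEq V] (G : SimpleGraph V) (k : ℕ)
    {Ψ Ψ' : Finset V → ℝ} (h : ∀ D, Ψ D ≤ Ψ' D) (D : Finset V) : it G k Ψ D ≤ it G k Ψ' D := by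
  induction k generalizing D with
  | zero => exact h D
  | succ k ih =>
    unfold it
    refine div_le_div_of_nonneg_right (Finset.sum_le_sum fun v _ => ?_) (Nat.cast_nonneg _)
    exact B2S_EF_mono G D fun g => ih _

theorem B2S_Hit_mono {V : Type} [Fintype V] [DecidableEq V] (K : HW V) {D D' : Finset V} {h : ℕ}
    (hD : D ⊆ D') (hh : Hit K D h) : Hit K D' h := by
  intro x
  refine (W_mono K h x fun l _ => ?_).trans (hh x)
  exact ind_mono fun hl z hz hzD => hl z hz (hD hzD)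

/-- the mass of the bad words -/
theorem B2S_bad (hLC : LC_stmt) (hNF : NF_stmt) (hK1 : K1_stmt) (hBM : BM_stmt) (hBL : BL_stmt)
    (hK3 : K3_stmt) {V : Type} [Fintype V] [DecidableEq V] (K : HW V) (θ : ℝ) (h : ℕ)
    (hP : Par K θ h) (D : Finset V) (m a N H₁ r : ℕ) (hm : 1 ≤ m)
    (hm4 : 4 * m ≤ Nat.sqrt (Fintype.card V)) (hH : Hit K D H₁) :
    kws K D N (fun y l => ind (m ≤ l.length ∧ (top m y l).card < a)) ≤
      (Fintype.card V : ℝ) * (CZ θ * (a / m) *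
        (θ + m * ((r * H₁ + 1 : ℕ) : ℝ) * (3 / (2 * (Fintype.card V : ℝ)))) + (1 / 2) ^ r) := by
  have h1 := hBM hLC hNF hK1 V K θ h hP D m a N ((r * H₁ + 1 : ℕ) : ℝ) hm hm4
    (Nat.cast_nonneg _)
  have h2 := hBL V K D (2 * h) N ((r * H₁ + 1 : ℕ) : ℝ) (by
    have : 1 ≤ r * H₁ + 1 := by omega
    exact_mod_cast this)
  have h3 := hK3 V K D H₁ hH r N
  have h4 : kws K D N (fun y l => ind (((r * H₁ + 1 : ℕ) : ℝ) < ((run [y] l).length : ℝ))) ≤
      kws K D N (fun _ l => ind (r * H₁ < l.length)) := by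
    refine kws_mono K D N fun y _ l _ _ => ind_mono fun hl => ?_
    have h5 : r * H₁ + 1 < (run [y] l).length := by exact_mod_cast hl
    have h6 := run_length_le [y] l
    simp only [List.length_singleton] at h6
    omega
  have h7 := (h1.trans (add_le_add_right (h2.trans (h4.trans h3)) _))
  refine h7.trans (le_of_eq ?_)
  ring

/-- the numbers -/
theorem B2S_numbers (n : ℕ) (t h₀ J : ℕ) (ht : 1 ≤ t) (hh : 1 ≤ h₀) (hJ1 : t ^ 12 ≤ J)
    (hL : 64 * (t * h₀ * (Nat.sqrt J + 1)) ≤ Nat.sqrt n) :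
    ∃ m a : ℕ, 4 * m ≤ Nat.sqrt n ∧ 16 * (t * h₀) ≤ m ∧ 1 ≤ a ∧
      ((m : ℝ) / t ≤ a) ∧ ((a : ℝ) ≤ 2 * m / t) ∧
      4 * ((Nat.sqrt J + 1) * m) ≤ Nat.sqrt n ∧
      (J : ℝ) * m ^ 2 ≤ n / 16 ∧ (n : ℝ) / 1024 ≤ J * m ^ 2 ∧
      (m : ℝ) ≤ Nat.sqrt n / (4 * (t : ℝ) ^ 6) ∧ t ≤ Nat.sqrt J := by
  set L := Nat.sqrt n with hLdef
  set r := Nat.sqrt J with hr
  have ht6 : t ^ 6 ≤ r := by
    rw [hr, Nat.le_sqrt]
    calc t ^ 6 * t ^ 6 = t ^ 12 := by ring
      _ ≤ J := hJ1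
  have htt6 : t ≤ t ^ 6 := by
    calc t = t ^ 1 := (pow_one t).symm
      _ ≤ t ^ 6 := Nat.pow_le_pow_right ht (by norm_num)
  have hr1 : 1 ≤ r := ht.trans (htt6.trans ht6)
  have hrr : r * r ≤ J := Nat.sqrt_le J
  have hrJ : J < (r + 1) * (r + 1) := Nat.lt_succ_sqrt J
  have hLL : L * L ≤ n := Nat.sqrt_le n
  have hLn : n < (L + 1) * (L + 1) := Nat.lt_succ_sqrt n
  obtain ⟨m, hm⟩ : ∃ m, m = L / (4 * (r + 1)) := ⟨_, rfl⟩
  have hpos : 0 < 4 * (r + 1) := by omega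
  have hm1 : 4 * ((r + 1) * m) ≤ L := by
    have := Nat.mul_div_le L (4 * (r + 1))
    rw [← hm] at this
    linarith [mul_assoc 4 (r + 1) m]
  have hm2 : L < 4 * ((r + 1) * (m + 1)) := by
    have := Nat.lt_mul_div_succ L hpos
    rw [← hm] at this
    calc L < 4 * (r + 1) * (m + 1) := this
      _ = 4 * ((r + 1) * (m + 1)) := by ring
  have hm16 : 16 * (t * h₀) ≤ m := by
    rw [hm, Nat.le_div_iff_mul_le hpos]
    calc 16 * (t * h₀) * (4 * (r + 1)) = 64 * (t * h₀ * (r + 1)) := by ring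
      _ ≤ L := hL
  have hth : t ≤ t * h₀ := Nat.le_mul_of_pos_right t hh
  have hmt : t ≤ m := by omega
  have hm0 : 16 ≤ m := by
    have : 1 ≤ t * h₀ := ht.trans hth
    omega
  have hm4 : 4 * m ≤ L :=
    (Nat.mul_le_mul_left 4 (Nat.le_mul_of_pos_left m (Nat.succ_pos r))).trans hm1
  have htR : (0 : ℝ) < t := by exact_mod_cast ht
  refine ⟨m, m / t + 1, hm4, hm16, Nat.le_add_left _ _, ?_, ?_, hm1, ?_, ?_, ?_, htt6.trans ht6⟩
  · rw [div_le_iff₀ htR]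
    have h1 : m < t * (m / t + 1) := Nat.lt_mul_div_succ m ht
    have h2 : (m : ℝ) < t * ((m / t + 1 : ℕ) : ℝ) := by exact_mod_cast h1
    linarith [mul_comm (t : ℝ) ((m / t + 1 : ℕ) : ℝ)]
  · rw [le_div_iff₀ htR]
    have h1 : (m / t) * t ≤ m := Nat.div_mul_le_self m t
    have h2 : (m / t + 1) * t ≤ 2 * m := by
      calc (m / t + 1) * t = (m / t) * t + t := by ring
        _ ≤ m + m := by omega
        _ = 2 * m := by ring
    exact_mod_cast h2
  · -- J m² ≤ n / 16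
    rw [le_div_iff₀ (by norm_num)]
    have h1 : 16 * ((r + 1) * (r + 1) * (m * m)) ≤ n := by
      calc 16 * ((r + 1) * (r + 1) * (m * m)) = (4 * ((r + 1) * m)) * (4 * ((r + 1) * m)) := by ring
        _ ≤ L * L := Nat.mul_le_mul hm1 hm1
        _ ≤ n := hLL
    have h2 : J * (m * m) ≤ (r + 1) * (r + 1) * (m * m) := Nat.mul_le_mul_right _ hrJ.le
    have h3 : J * (m * m) * 16 ≤ n := by omega
    have h4 : (J : ℝ) * (m * m) * 16 ≤ n := by exact_mod_cast h3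
    calc (J : ℝ) * (m : ℝ) ^ 2 * 16 = J * (m * m) * 16 := by ring
      _ ≤ n := h4
  · rw [div_le_iff₀ (by norm_num)]
    have h0 : L + 1 ≤ 16 * (r * m) + 1 := by
      have h1 : 4 * ((r + 1) * (m + 1)) ≤ 4 * ((2 * r) * (2 * m)) := by
        apply Nat.mul_le_mul_left
        apply Nat.mul_le_mul <;> omega
      have h2 : 4 * ((2 * r) * (2 * m)) = 16 * (r * m) := by ring
      omega
    have hrm : 1 ≤ r * m := Nat.mul_pos hr1 (by omega)
    have h1 : (L + 1) * (L + 1) ≤ (17 * (r * m)) * (17 * (r * m)) :=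
      Nat.mul_le_mul (by omega) (by omega)
    have h2 : n ≤ 1024 * (r * r * (m * m)) := by
      have h3 : (17 * (r * m)) * (17 * (r * m)) = 289 * (r * r * (m * m)) := by ring
      omega
    have h3 : r * r * (m * m) ≤ J * (m * m) := Nat.mul_le_mul_right _ hrr
    have h4 : n ≤ J * (m * m) * 1024 := by omega
    have h5 : (n : ℝ) ≤ J * (m * m) * 1024 := by exact_mod_cast h4
    calc (n : ℝ) ≤ J * (m * m) * 1024 := h5
      _ = J * (m : ℝ) ^ 2 * 1024 := by ring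
  · rw [le_div_iff₀ (by positivity)]
    have h1 : m * (4 * t ^ 6) ≤ L := by
      calc m * (4 * t ^ 6) ≤ m * (4 * (r + 1)) := by
            apply Nat.mul_le_mul_left; omega
        _ = 4 * ((r + 1) * m) := by ring
        _ ≤ L := hm1
    exact_mod_cast h1

theorem B2S (hLC : LC_stmt) (hNF : NF_stmt) (hK1 : K1_stmt) (hBM : BM_stmt) (hBL : BL_stmt)
    (hK2 : K2_stmt) (hK3 : K3_stmt) (hSS : SS_stmt) (hQE : QE_stmt) (hWI : WI_stmt)
    (hEC : EC_stmt) (hES : ES_stmt) (hIN : IN_stmt) (hQH : QH_stmt) : B2S_stmt := by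
  intro θ₀
  refine ⟨4 * CZ (max θ₀ 1) * (max θ₀ 1 + 1) + 2 * max θ₀ 1 + 12300, ?_, ?_⟩
  · have h1 : 1 ≤ max θ₀ 1 := le_max_right _ _
    have h2 : 0 ≤ CZ (max θ₀ 1) := by unfold CZ; positivity
    have h3 : 0 ≤ 4 * CZ (max θ₀ 1) * (max θ₀ 1 + 1) := by positivity
    linarith
  intro V _ _ G d K h₀ hStd D H₁ t J hD hHit ht hJ1 _hJ2 hL
  have hθ1 : 1 ≤ θ₀ := hStd.par.one_le
  rw [max_eq_left hθ1]
  set θ := θ₀ with hθ
  set n := Fintype.card V with hn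
  set L := Nat.sqrt n with hLdef
  have hh : 1 ≤ h₀ := hStd.par.h_pos
  obtain ⟨m, a, hm4, hm16, ha1, ham1, ham2, hrm, hJm1, hJm2, hmL, htr⟩ :=
    B2S_numbers n t h₀ J ht hh hJ1 hL
  set r := Nat.sqrt J with hr
  have hth : t ≤ t * h₀ := Nat.le_mul_of_pos_right t hh
  have hh0 : h₀ ≤ t * h₀ := Nat.le_mul_of_pos_left h₀ ht
  have hm1 : 1 ≤ m := by omega
  have hL1 : 1 ≤ L := by omega
  have hn1 : 1 ≤ n := by
    have h1 : L * L ≤ n := Nat.sqrt_le n
    have h2 : 1 * 1 ≤ L * L := Nat.mul_le_mul hL1 hL1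
    omega
  have hJ0 : 1 ≤ J := by
    have : 1 ≤ t ^ 12 := Nat.one_le_pow _ _ ht
    omega
  have hr1 : 1 ≤ r := ht.trans htr
  have hCZ : 0 ≤ CZ θ := by unfold CZ; positivity
  -- casts
  have tR : (1 : ℝ) ≤ t := by exact_mod_cast ht
  have mR : (1 : ℝ) ≤ m := by exact_mod_cast hm1
  have nR : (1 : ℝ) ≤ n := by exact_mod_cast hn1
  have LR : (1 : ℝ) ≤ L := by exact_mod_cast hL1
  have JR : (1 : ℝ) ≤ J := by exact_mod_cast hJ0
  have aR : (1 : ℝ) ≤ a := by exact_mod_cast ha1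
  have rR : (1 : ℝ) ≤ r := by exact_mod_cast hr1
  have hLL : (L : ℝ) * L ≤ n := by
    have : L * L ≤ n := Nat.sqrt_le n
    exact_mod_cast this
  have t0 : (0 : ℝ) < t := by linarith
  have m0 : (0 : ℝ) < m := by linarith
  have n0 : (0 : ℝ) < n := by linarith
  have L0 : (0 : ℝ) < L := by linarith
  have J0 : (0 : ℝ) < J := by linarith
  obtain ⟨E, hE⟩ : ∃ E : ℝ, E = J * m * t := ⟨_, rfl⟩
  have hE0 : 0 < E := by rw [hE]; positivity
  obtain ⟨κ, hκ⟩ : ∃ κ : ℝ, κ = (m + 1) * (J * a / 2) ^ 2 / (2 * (n : ℝ) * E) := ⟨_, rfl⟩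
  have hκ' : κ = ((m : ℝ) + 1) * J * (a : ℝ) ^ 2 / (8 * n * m * t) := by
    rw [hκ, hE]
    field_simp
    ring
  -- lower bound of κ
  have hκlow : 1 / (8192 * (t : ℝ) ^ 3) ≤ κ := by
    have h1 : (m : ℝ) ^ 2 / t ^ 2 ≤ (a : ℝ) ^ 2 := by
      rw [← div_pow]
      exact pow_le_pow_left₀ (by positivity) ham1 2
    have h2 : (J : ℝ) * m ^ 2 / (8 * n * t ^ 3) ≤ κ := by
      rw [hκ', div_le_div_iff₀ (by positivity) (by positivity)]
      have h3 : (m : ℝ) ^ 2 ≤ a ^ 2 * t ^ 2 := by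
        rw [div_le_iff₀ (by positivity)] at h1
        exact h1
      have h4 : (m : ℝ) * m ^ 2 ≤ (m + 1) * (a ^ 2 * t ^ 2) :=
        mul_le_mul (by linarith) h3 (by positivity) (by linarith)
      calc (J : ℝ) * (m : ℝ) ^ 2 * (8 * (n : ℝ) * m * t)
          = 8 * (n : ℝ) * J * t * ((m : ℝ) * (m : ℝ) ^ 2) := by ring
        _ ≤ 8 * (n : ℝ) * J * t * (((m : ℝ) + 1) * ((a : ℝ) ^ 2 * (t : ℝ) ^ 2)) :=
          mul_le_mul_of_nonneg_left h4 (by positivity)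
        _ = ((m : ℝ) + 1) * J * (a : ℝ) ^ 2 * (8 * (n : ℝ) * (t : ℝ) ^ 3) := by ring
    refine le_trans ?_ h2
    rw [div_le_div_iff₀ (by positivity) (by positivity)]
    have h5 : (n : ℝ) ≤ J * m ^ 2 * 1024 := by
      rw [div_le_iff₀ (by norm_num)] at hJm2
      exact hJm2
    calc 1 * (8 * (n : ℝ) * (t : ℝ) ^ 3) = 8 * (t : ℝ) ^ 3 * (n : ℝ) := by ring
      _ ≤ 8 * (t : ℝ) ^ 3 * ((J : ℝ) * (m : ℝ) ^ 2 * 1024) :=
        mul_le_mul_of_nonneg_left h5 (by positivity)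
      _ = (J : ℝ) * (m : ℝ) ^ 2 * (8192 * (t : ℝ) ^ 3) := by ring
  have hκ0 : 0 < κ := lt_of_lt_of_le (by positivity) hκlow
  -- upper bound of κ
  have hκup : κ ≤ 1 / (16 * t) := by
    have h1 : (a : ℝ) * t ≤ 2 * m := by
      rw [le_div_iff₀ t0] at ham2
      exact ham2
    have h2 : (a : ℝ) ^ 2 * t ^ 2 ≤ 4 * m ^ 2 := by
      calc (a : ℝ) ^ 2 * (t : ℝ) ^ 2 = ((a : ℝ) * t) ^ 2 := by ring
        _ ≤ (2 * (m : ℝ)) ^ 2 := pow_le_pow_left₀ (by positivity) h1 2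
        _ = 4 * (m : ℝ) ^ 2 := by ring
    have h2' : (a : ℝ) ^ 2 ≤ 4 * m ^ 2 := by
      refine le_trans ?_ h2
      have : (1 : ℝ) ≤ (t : ℝ) ^ 2 := one_le_pow₀ tR
      exact le_mul_of_one_le_right (sq_nonneg _) this
    have h3 : (J : ℝ) * m ^ 2 * 16 ≤ n := by
      rw [le_div_iff₀ (by norm_num)] at hJm1
      exact hJm1
    rw [hκ', div_le_div_iff₀ (by positivity) (by positivity)]
    calc ((m : ℝ) + 1) * (J : ℝ) * (a : ℝ) ^ 2 * (16 * (t : ℝ))
        ≤ (2 * (m : ℝ)) * (J : ℝ) * (4 * (m : ℝ) ^ 2) * (16 * (t : ℝ)) := by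
          have h6 : ((m : ℝ) + 1) * J ≤ 2 * (m : ℝ) * J :=
            mul_le_mul_of_nonneg_right (by linarith) J0.le
          have h7 : ((m : ℝ) + 1) * J * (a : ℝ) ^ 2 ≤ 2 * (m : ℝ) * J * (4 * (m : ℝ) ^ 2) :=
            mul_le_mul h6 h2' (by positivity) (by positivity)
          exact mul_le_mul_of_nonneg_right h7 (by positivity)
      _ = ((J : ℝ) * (m : ℝ) ^ 2 * 16) * (8 * (m : ℝ) * t) := by ring
      _ ≤ (n : ℝ) * (8 * (m : ℝ) * t) := mul_le_mul_of_nonneg_right h3 (by positivity)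
      _ = 1 * (8 * (n : ℝ) * m * t) := by ring
  have hκ1 : κ ≤ 1 := by
    refine hκup.trans ?_
    rw [div_le_one (by positivity)]
    linarith
  -- the bad words
  obtain ⟨p, hp⟩ : ∃ p : ℝ, p = CZ θ * (a / m) *
        (θ + m * ((r * H₁ + 1 : ℕ) : ℝ) * (3 / (2 * (n : ℝ)))) + (1 / 2) ^ r := ⟨_, rfl⟩
  have hp0 : 0 ≤ p := by
    rw [hp]
    have : 0 ≤ θ := by linarith
    positivity
  have hbad : ∀ D', D' = D ∨ (D ⊆ D' ∧ 2 ≤ J) → ∀ N,
      kws K D' N (fun y l => ind (m ≤ l.length ∧ (top m y l).card < a)) ≤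
        (Fintype.card V : ℝ) * p := by
    intro D' hD' N
    have hsub : D ⊆ D' := by
      rcases hD' with h | h
      · rw [h]
      · exact h.1
    rw [hp]
    exact B2S_bad hLC hNF hK1 hBM hBL hK3 K θ h₀ hStd.par D' m a N H₁ r hm1 hm4
      (B2S_Hit_mono K hsub hHit)
  have hin := hIN hSS hQE hWI hK2 hEC hES hK1 V G d K θ h₀ hStd.reg hStd.ker hStd.par D m a J
    κ p E hD hm4 ha1 hJ0 hE0 hp0 (by rw [hκ]) hbad
  -- from Q to Hit
  have hHitQ : ∀ D' : Finset V, κ ≤ Q K D' m →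
      Hit K D' ⌊(4 * CZ θ * (θ + 1) + 2 * θ + 12300) * (L : ℝ) / (t : ℝ) ^ 3⌋₊ := by
    intro D' hQ
    refine hQH V K D' m h₀ _ κ hh hStd.low hκ0 hQ ?_
    have h1 : 2 / κ + 1 ≤ 24576 * (t : ℝ) ^ 3 := by
      have h2 : 1 / κ ≤ 8192 * (t : ℝ) ^ 3 := by
        rw [div_le_iff₀ (by positivity)] at hκlow
        rw [div_le_iff₀ hκ0]
        linarith
      have h3 : 1 ≤ 8192 * (t : ℝ) ^ 3 := by
        have : (1 : ℝ) ≤ t ^ 3 := one_le_pow₀ tR
        linarith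
      have h4 : 2 / κ = 2 * (1 / κ) := by ring
      rw [h4]
      linarith
    have h2 : (h₀ : ℝ) + m ≤ L / (2 * (t : ℝ) ^ 6) := by
      have h3 : (h₀ : ℝ) ≤ m := by
        have : h₀ ≤ m := by omega
        exact_mod_cast this
      calc (h₀ : ℝ) + m ≤ 2 * m := by linarith
        _ ≤ 2 * (L / (4 * (t : ℝ) ^ 6)) := by linarith
        _ = L / (2 * (t : ℝ) ^ 6) := by
          field_simp
          ring
    have h3 : ((h₀ : ℝ) + m) * (2 / κ + 1) ≤ 12288 * (L / (t : ℝ) ^ 3) := by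
      calc ((h₀ : ℝ) + m) * (2 / κ + 1) ≤ (L / (2 * (t : ℝ) ^ 6)) * (24576 * (t : ℝ) ^ 3) :=
            mul_le_mul h2 h1 (by positivity) (by positivity)
        _ = 12288 * (L / (t : ℝ) ^ 3) := by
            field_simp
            ring
    have hLt : 1 ≤ (L : ℝ) / (t : ℝ) ^ 3 := by
      rw [le_div_iff₀ (by positivity), one_mul]
      have h4 : (1 : ℝ) ≤ m := mR
      have h5 : (m : ℝ) * (4 * (t : ℝ) ^ 6) ≤ L := by
        rw [le_div_iff₀ (by positivity)] at hmL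
        exact hmL
      have h6 : (t : ℝ) ^ 3 ≤ t ^ 6 := pow_le_pow_right₀ tR (by norm_num)
      have h7 : (0 : ℝ) ≤ 4 * (t : ℝ) ^ 6 := by positivity
      have h8 : 1 * (4 * (t : ℝ) ^ 6) ≤ (m : ℝ) * (4 * (t : ℝ) ^ 6) :=
        mul_le_mul_of_nonneg_right mR h7
      linarith
    have h4 : 12289 * ((L : ℝ) / (t : ℝ) ^ 3) ≤
        (4 * CZ θ * (θ + 1) + 2 * θ + 12300) * (L : ℝ) / (t : ℝ) ^ 3 := by
      rw [mul_div_assoc]
      refine mul_le_mul_of_nonneg_right ?_ (by positivity)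
      have : 0 ≤ 4 * CZ θ * (θ + 1) := by
        have : 0 ≤ θ + 1 := by linarith
        positivity
      linarith
    have h5 : (4 * CZ θ * (θ + 1) + 2 * θ + 12300) * (L : ℝ) / (t : ℝ) ^ 3 - 1 ≤
        ⌊(4 * CZ θ * (θ + 1) + 2 * θ + 12300) * (L : ℝ) / (t : ℝ) ^ 3⌋₊ :=
      (Nat.sub_one_lt_floor _).le
    linarith
  have hmono : it G J (fun D' => ind (¬ Hit K D'
      ⌊(4 * CZ θ * (θ + 1) + 2 * θ + 12300) * (L : ℝ) / (t : ℝ) ^ 3⌋₊)) D ≤
      it G J (fun D' => ind (Q K D' m < κ)) D := by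
    refine B2S_it_mono G J (fun D' => ind_mono fun hnot => ?_) D
    by_contra hge
    exact hnot (hHitQ D' (not_lt.1 hge))
  refine hmono.trans (hin.trans ?_)
  -- the final inequality
  set x : ℝ := (H₁ : ℝ) / L with hx
  have hx0 : 0 ≤ x := by rw [hx]; positivity
  have b1 : κ ≤ 1 / t := by
    refine hκup.trans ?_
    exact one_div_le_one_div_of_le t0 (by linarith)
  have b2 : p ≤ (2 * CZ θ * (θ + 1) * (1 + x) + 1) / t := by
    have h1 : (a : ℝ) / m ≤ 2 / t := by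
      rw [div_le_div_iff₀ m0 t0]
      rw [le_div_iff₀ t0] at ham2
      linarith
    have h2 : (m : ℝ) * ((r * H₁ + 1 : ℕ) : ℝ) * (3 / (2 * (n : ℝ))) ≤ x + 1 := by
      have h3 : (m : ℝ) * ((r * H₁ + 1 : ℕ) : ℝ) ≤ L / 4 * (H₁ + 1) := by
        push_cast
        have h4 : (m : ℝ) * r ≤ L / 4 := by
          have h5 : 4 * (((r : ℝ) + 1) * m) ≤ L := by exact_mod_cast hrm
          have e5 : ((r : ℝ) + 1) * m = (m : ℝ) * r + m := by ring
          linarith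
        have h6 : (m : ℝ) ≤ L / 4 := by
          have h7 : 4 * (m : ℝ) ≤ L := by exact_mod_cast hm4
          linarith
        have h8 : (0 : ℝ) ≤ H₁ := Nat.cast_nonneg _
        calc (m : ℝ) * (r * H₁ + 1) = (m * r) * H₁ + m := by ring
          _ ≤ L / 4 * H₁ + L / 4 := add_le_add (mul_le_mul_of_nonneg_right h4 h8) h6
          _ = L / 4 * (H₁ + 1) := by ring
      have h9 : (m : ℝ) * ((r * H₁ + 1 : ℕ) : ℝ) * (3 / (2 * (n : ℝ))) ≤
          L / 4 * (H₁ + 1) * (3 / (2 * (n : ℝ))) :=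
        mul_le_mul_of_nonneg_right h3 (by positivity)
      refine h9.trans ?_
      have h10 : (L : ℝ) / n ≤ 1 / L := by
        rw [div_le_div_iff₀ n0 L0]
        linarith
      have h11 : (L : ℝ) / 4 * (H₁ + 1) * (3 / (2 * (n : ℝ))) = 3 / 8 * (L / n) * (H₁ + 1) := by
        field_simp
        ring
      rw [h11]
      have h8 : (0 : ℝ) ≤ (H₁ : ℝ) + 1 := by positivity
      have h12 : (1 : ℝ) / L ≤ 1 := by
        rw [div_le_one L0]; exact LR
      calc 3 / 8 * ((L : ℝ) / n) * (H₁ + 1) ≤ 1 * (1 / L) * (H₁ + 1) := by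
            refine mul_le_mul_of_nonneg_right ?_ h8
            refine mul_le_mul (by norm_num) h10 (by positivity) (by norm_num)
        _ = x + 1 / L := by rw [hx]; ring
        _ ≤ x + 1 := by linarith
    have h3 : (1 / 2 : ℝ) ^ r ≤ 1 / t := by
      have h4 : (r : ℝ) < 2 ^ r := by exact_mod_cast Nat.lt_two_pow_self
      have h5 : (t : ℝ) ≤ r := by exact_mod_cast htr
      rw [div_pow, one_pow]
      exact one_div_le_one_div_of_le t0 (by linarith)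
    have h4 : θ + m * ((r * H₁ + 1 : ℕ) : ℝ) * (3 / (2 * (n : ℝ))) ≤ (θ + 1) * (1 + x) := by
      have e4 : (θ + 1) * (1 + x) = θ + 1 + θ * x + x := by ring
      have e5 : 0 ≤ θ * x := mul_nonneg (by linarith) hx0
      linarith
    have h5 : CZ θ * ((a : ℝ) / m) * (θ + m * ((r * H₁ + 1 : ℕ) : ℝ) * (3 / (2 * (n : ℝ)))) ≤
        CZ θ * (2 / t) * ((θ + 1) * (1 + x)) := by
      refine mul_le_mul (mul_le_mul_of_nonneg_left h1 hCZ) h4 ?_ (by positivity)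
      have : 0 ≤ θ := by linarith
      positivity
    rw [hp]
    calc CZ θ * ((a : ℝ) / m) * (θ + m * ((r * H₁ + 1 : ℕ) : ℝ) * (3 / (2 * (n : ℝ)))) +
          (1 / 2) ^ r ≤ CZ θ * (2 / t) * ((θ + 1) * (1 + x)) + 1 / t := add_le_add h5 h3
      _ = (2 * CZ θ * (θ + 1) * (1 + x) + 1) / t := by
          field_simp
  have b3 : (J : ℝ) * (2 * m * θ + 2 * J * a * m * (m + 1) / n) / E ≤ (2 * θ + 1) / t := by
    rw [hE, div_le_div_iff₀ (by positivity) t0]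
    have h1 : (a : ℝ) * t ≤ 2 * m := by
      rw [le_div_iff₀ t0] at ham2
      exact ham2
    have h1' : (a : ℝ) ≤ 2 * m :=
      (le_mul_of_one_le_right (by linarith) tR).trans h1
    have h3 : (J : ℝ) * m ^ 2 * 16 ≤ n := by
      rw [le_div_iff₀ (by norm_num)] at hJm1
      exact hJm1
    have h4 : 2 * (J : ℝ) * a * m * (m + 1) / n ≤ m := by
      rw [div_le_iff₀ n0]
      calc 2 * (J : ℝ) * a * m * ((m : ℝ) + 1)
          ≤ 2 * (J : ℝ) * (2 * (m : ℝ)) * m * (2 * (m : ℝ)) := by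
            have h5 : 2 * (J : ℝ) * a ≤ 2 * (J : ℝ) * (2 * (m : ℝ)) :=
              mul_le_mul_of_nonneg_left h1' (by positivity)
            have h6 : 2 * (J : ℝ) * a * m ≤ 2 * (J : ℝ) * (2 * (m : ℝ)) * m :=
              mul_le_mul_of_nonneg_right h5 m0.le
            exact mul_le_mul h6 (by linarith) (by positivity) (by positivity)
        _ = ((J : ℝ) * (m : ℝ) ^ 2 * 16) * ((m : ℝ) / 2) := by ring
        _ ≤ (n : ℝ) * ((m : ℝ) / 2) := mul_le_mul_of_nonneg_right h3 (by positivity)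
        _ ≤ (m : ℝ) * (n : ℝ) := by
          have e6 : (n : ℝ) * ((m : ℝ) / 2) = (m : ℝ) * n / 2 := by ring
          have e7 : 0 ≤ (m : ℝ) * n := mul_nonneg m0.le n0.le
          linarith
    calc (J : ℝ) * (2 * (m : ℝ) * θ + 2 * (J : ℝ) * a * m * ((m : ℝ) + 1) / n) * (t : ℝ) ≤
          (J : ℝ) * (2 * (m : ℝ) * θ + m) * (t : ℝ) := by
          refine mul_le_mul_of_nonneg_right (mul_le_mul_of_nonneg_left ?_ J0.le) t0.le
          linarith
      _ = (2 * θ + 1) * ((J : ℝ) * m * t) := by ring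
  calc 2 * (κ + p) + (J : ℝ) * (2 * (m : ℝ) * θ + 2 * (J : ℝ) * a * m * ((m : ℝ) + 1) / (n : ℝ)) / E
      ≤ 2 * (1 / t + (2 * CZ θ * (θ + 1) * (1 + x) + 1) / t) + (2 * θ + 1) / t := by
        linarith
    _ = (4 * CZ θ * (θ + 1) * (1 + x) + 2 * θ + 5) / t := by
        field_simp
        ring
    _ ≤ (4 * CZ θ * (θ + 1) + 2 * θ + 12300) * (1 + x) / t := by
        refine div_le_div_of_nonneg_right ?_ t0.le
        have e8 : (4 * CZ θ * (θ + 1) + 2 * θ + 12300) * (1 + x) =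
            4 * CZ θ * (θ + 1) * (1 + x) + (2 * θ + 12300) + (2 * θ + 12300) * x := by ring
        have e9 : 0 ≤ (2 * θ + 12300) * x := mul_nonneg (by linarith) hx0
        linarith

end Pool.Agent.helper66.FB
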